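import Pool.Agent.W_4481e3_q87.GoR
import Pool.Agent.W_4481e3_tab.T9

/-!
Tree s11o9, data 6.
-/

namespace Pool.Agent.W_4481e3_rt.s11o9

open Pool.Agent.W_4481e3_q25.EvR

theorem k124 : ckO Pool.Agent.W_4481e3_tab.T9.tab 4372160 6498560 16777216 8388608 11862016 14483456 15 1572864 524288 1572864 524288 511768002 529698652 3586130 7172260 268435456 268435456 16777216 16777216 14628291 14628291 0x102000c02000c02000c03000c21203000c03000c04000c03000c05070c21203000c03000c03000c2104000c03000c04000c2105070c05070c05000c05070c2106000c21204000c04000c05000c205000c05000c05000c206000c121204000c04000c05000c2106000c06000c06000c212106000c06000c106000c206000c06000c07000c2106000c06000c207000cb2121829417a357721212103000c04000c204000c03000c04000c2104000c04000c205070c04000c05000c205070cb2104000c04000cb1205070cb215212104000c04000c204000c04000c04000c2104000cbb212bb2b1b2104000cb104000cb12bb2121205029c05029c205070c05070c2105070c05070c1bb2b1206000cb1b2128198f7908d705070c06000c05070c2105070cb12826e779b82706000cb206000cb2b1b21b282bc479d9771b21bb1b2b121280dd67a7a37 = true := by decide +kernel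

theorem k126 : ckO Pool.Agent.W_4481e3_tab.T9.tab 4372160 6498560 16777216 8388608 11862016 14483456 5 1572864 524288 1572864 524288 515354132 515354132 7172260 7172260 268435456 268435456 16777216 16777216 14628291 14628291 0x102000c02000c02000c1202000c02000c03000c202000c03000c2121 = true := by decide +kernel

theorem k129 : ckO Pool.Agent.W_4481e3_tab.T9.tab 4372160 6498560 16777216 8388608 11862016 14483456 5 1572864 524288 1572864 524288 522526392 493837352 14344520 14344520 268435456 268435456 16777216 16777216 14628291 14628291 0x100000c00000c01000c201000c02000c21201000c01007c01007c121 = true := by decide +kernel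

theorem k131 : ckO Pool.Agent.W_4481e3_tab.T9.tab 4372160 6498560 16777216 8388608 11862016 14483456 8 1572864 524288 1572864 524288 493837352 508181872 14344520 28689040 268435456 268435456 16777216 16777216 14628291 14628291 0x100000c00000c00000c00000c00000c02000c12100000c00000c200000c00000c202000c102000c02000c203000c04000c2121212 = true := by decide +kernel

end Pool.Agent.W_4481e3_rt.s11o9
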